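import Pool.Agent.ASD.Stmts3

/-!
# Squad ASD, row RWD: properties of `Rw`
-/

namespace Pool.Agent.PP.SD.H64

open Pool.Agent.PP.SD

section aux

variable {V₀ : Type} [CommGroup V₀] {E₀ : Subgroup (MulAut V₀)}

theorem map_aux {σ : MulAut V₀} (hσ : σ ∈ E₀) {W : Subgroup V₀} (h : Rw E₀ W) :
    Rw E₀ (W.map σ.toMonoidHom) := by
  refine ⟨?_, ?_⟩
  · intro h0
    apply h.1
    rw [Subgroup.map_eq_bot_iff] at h0
    rw [eq_bot_iff]
    intro x hx
    have h1 : σ x = 1 := h0 hx
    rw [Subgroup.mem_bot]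
    exact σ.injective (h1.trans (map_one σ).symm)
  · intro τ hτ hfix
    have h1 : σ⁻¹ * τ * σ = 1 := by
      apply h.2 _ (E₀.mul_mem (E₀.mul_mem (E₀.inv_mem hσ) hτ) hσ)
      intro w hw
      have h2 : τ (σ w) = σ w := hfix _ ⟨w, hw, rfl⟩
      rw [MulAut.mul_apply, MulAut.mul_apply, h2, MulAut.inv_apply_self]
    have h3 : τ = σ * (σ⁻¹ * τ * σ) * σ⁻¹ := by group
    rw [h3, h1]
    group

end aux

/-- RWD -/
theorem rwd : RwdStmt := by
  intro ℓ _ V₀ _ _ E₀ hF
  have hℓ : ℓ.Prime := Fact.out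
  refine ⟨?_, ?_, ?_, ?_, ?_⟩
  · rintro W W' ⟨h0, h1⟩ hle
    refine ⟨?_, ?_⟩
    · intro h
      apply h0
      rw [eq_bot_iff, ← h]
      exact hle
    · intro σ hσ hfix
      exact h1 σ hσ (fun w hw => hfix w (hle hw))
  · intro σ hσ W
    constructor
    · intro h
      have h1 := map_aux (E₀.inv_mem hσ) h
      have h2 : (W.map σ.toMonoidHom).map (σ⁻¹ : MulAut V₀).toMonoidHom = W := by
        ext x
        constructor
        · rintro ⟨_, ⟨w, hw, rfl⟩, rfl⟩
          have h3 : (σ⁻¹ : MulAut V₀) (σ w) = w := MulAut.inv_apply_self _ _ _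
          exact h3.symm ▸ hw
        · intro hx
          exact ⟨σ x, ⟨x, hx, rfl⟩, MulAut.inv_apply_self _ _ _⟩
      rw [h2] at h1
      exact h1
    · intro h
      exact map_aux hσ h
  · refine ⟨?_, ?_⟩
    · intro h
      have h1 : Nat.card V₀ = 1 := by
        rw [← Subgroup.card_top, h, Subgroup.card_bot]
      rw [hF.cd] at h1
      have h2 := hℓ.two_le
      nlinarith
    · intro σ _ hfix
      ext v
      exact hfix v trivial
  · rintro W ⟨_, h1⟩ σ hσ τ hτ hst
    have h2 : σ⁻¹ * τ = 1 := by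
      apply h1 _ (E₀.mul_mem (E₀.inv_mem hσ) hτ)
      intro w hw
      rw [MulAut.mul_apply, ← hst w hw, MulAut.inv_apply_self]
    have h3 := inv_mul_eq_one.1 h2
    exact h3
  · intro W hW
    have h1 : Nat.card W ∣ ℓ ^ 2 := by
      rw [← hF.cd]
      exact Subgroup.card_subgroup_dvd_card W
    obtain ⟨k, hk, hk2⟩ := (Nat.dvd_prime_pow hℓ).1 h1
    interval_cases k
    · exfalso
      apply hW
      rw [pow_zero] at hk2
      exact Subgroup.eq_bot_of_card_eq W hk2
    · right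
      rw [hk2, pow_one]
    · left
      apply Subgroup.eq_top_of_card_eq
      rw [hk2, hF.cd]

end Pool.Agent.PP.SD.H64
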